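import Mathlib
import Pool.Agent.X102.Lap
import Pool.Agent.X102.FBSol

set_option autoImplicit false

open Filter Topology Set Metric MeasureTheory Laplacian InnerProductSpace
open scoped NNReal ContDiff

namespace Pool.Agent.Results.MP_056161_an.NoRegularity

/-- Lipschitz domains of the plane `ℝ² = ℂ`: open connected sets which near each boundary point are,
in suitably rotated coordinates, the region on one side of the graph of a Lipschitz function. -/
def IsLipschitzDomain (D : Set ℂ) : Prop :=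
  IsOpen D ∧ IsConnected D ∧ ∀ p ∈ frontier D, ∃ ρ > 0, ∃ θ : ℂ, ‖θ‖ = 1 ∧
    ∃ (K : ℝ≥0) (g : ℝ → ℝ), LipschitzWith K g ∧
      ∀ z : ℂ, ‖z - p‖ < ρ → (z ∈ D ↔ g (θ * z).im < (θ * z).re)

/-- The setting of the problem, with `ℝ² = ℂ`, `x₁ = Re`, `B₂ = ball 0 2`. -/
structure Setting (D : Set ℂ) (u : ℂ → ℝ) : Prop where
  /-- `D` is a Lipschitz domain. -/
  lipschitz : IsLipschitzDomain D
  /-- `0 ∈ ∂D`. -/
  zero_mem : (0 : ℂ) ∈ frontier D
  /-- `u` is continuously differentiable in `B₂` -/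
  contDiff : ContDiffOn ℝ 1 u (ball 0 2)
  /-- with Lipschitz gradient: `u ∈ C^{1,1}(B₂)`. -/
  lipschitz_grad : ∃ K : ℝ≥0, LipschitzOnWith K (fderiv ℝ u) (ball 0 2)
  /-- `u` is twice differentiable with `Δu = x₁ χ_D` almost everywhere in `B₂`. -/
  equation : ∀ᵐ z ∂(volume.restrict (ball (0 : ℂ) 2)),
    DifferentiableAt ℝ (fderiv ℝ u) z ∧ Δ u z = D.indicator (fun z => z.re) z
  /-- `u = 0` in `B₂ \ closure D`. -/
  vanishing : ∀ z ∈ ball (0 : ℂ) 2, z ∉ closure D → u z = 0

/-- `∂D ∩ B_ρ` is, in rotated coordinates, the graph of a function `g` on `(-ρ, ρ)` of the class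
described by `P`. -/
def BoundaryOfClass (P : ℝ → (ℝ → ℝ) → Prop) (D : Set ℂ) : Prop :=
  ∃ ρ > 0, ∃ θ : ℂ, ‖θ‖ = 1 ∧ ∃ g : ℝ → ℝ, P ρ g ∧
    ∀ z : ℂ, ‖z‖ < ρ → (z ∈ frontier D ↔ (θ * z).re = g (θ * z).im)

/-- `g ∈ C¹(-ρ, ρ)`. -/
def C1 (ρ : ℝ) (g : ℝ → ℝ) : Prop := ContDiffOn ℝ 1 g (Ioo (-ρ) ρ)

/-- `g ∈ C^{1,α}(-ρ, ρ)`. -/
def C1Holder (α ρ : ℝ) (g : ℝ → ℝ) : Prop :=
  ContDiffOn ℝ 1 g (Ioo (-ρ) ρ) ∧
    ∃ C : ℝ, ∀ s ∈ Ioo (-ρ) ρ, ∀ t ∈ Ioo (-ρ) ρ, |deriv g s - deriv g t| ≤ C * |s - t| ^ α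

/-- `g ∈ C^∞(-ρ, ρ)`. -/
def CInfty (ρ : ℝ) (g : ℝ → ℝ) : Prop := ContDiffOn ℝ ∞ g (Ioo (-ρ) ρ)

/-- `g` is real analytic in `(-ρ, ρ)`. -/
def RealAnalytic (ρ : ℝ) (g : ℝ → ℝ) : Prop := AnalyticOnNhd ℝ g (Ioo (-ρ) ρ)

open Pool.Agent.X102.FB Pool.Agent.X102

lemma frontier_D : frontier D = {z : ℂ | f z.im = z.re} := by
  rw [frontier, D_isOpen.interior_eq]
  have hcl : closure D = {z : ℂ | f z.im ≤ z.re} := by
    apply Subset.antisymm
    · apply closure_minimal
      · intro z hz; exact (show f z.im < z.re from hz).le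
      · exact isClosed_le (f_continuous.comp Complex.continuous_im) Complex.continuous_re
    · intro z hz
      have hlim : Tendsto (fun ε : ℝ => z + (ε : ℂ)) (𝓝[>] 0) (𝓝 z) := by
        have hc : Continuous (fun ε : ℝ => z + (ε : ℂ)) := by fun_prop
        have := hc.tendsto 0
        simp only [Complex.ofReal_zero, add_zero] at this
        exact this.mono_left nhdsWithin_le_nhds
      apply mem_closure_of_tendsto hlim
      filter_upwards [self_mem_nhdsWithin] with ε hε
      have hε' : (0 : ℝ) < ε := hε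
      have hz' : f z.im ≤ z.re := hz
      change f (z + (ε : ℂ)).im < (z + (ε : ℂ)).re
      simp only [Complex.add_im, Complex.ofReal_im, add_zero, Complex.add_re, Complex.ofReal_re]
      linarith
  rw [hcl]
  ext z
  constructor
  · rintro ⟨h1, h2⟩
    have h1' : f z.im ≤ z.re := h1
    have h2' : ¬ (f z.im < z.re) := h2
    exact le_antisymm h1' (not_lt.mp h2')
  · intro h
    have h' : f z.im = z.re := h
    refine ⟨le_of_eq h', ?_⟩
    intro h2
    have h2' : f z.im < z.re := h2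
    linarith

lemma volume_frontier_D : volume (frontier D) = 0 := by
  rw [frontier_D]
  have h1 : {z : ℂ | f z.im = z.re} = Complex.measurableEquivRealProd ⁻¹'
      {p : ℝ × ℝ | f p.2 = p.1} := rfl
  have hm : MeasurableSet {p : ℝ × ℝ | f p.2 = p.1} := by
    have : IsClosed {p : ℝ × ℝ | f p.2 = p.1} :=
      isClosed_eq (f_continuous.comp continuous_snd) continuous_fst
    exact this.measurableSet
  rw [h1, Complex.volume_preserving_equiv_real_prod.measure_preimage hm.nullMeasurableSet]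
  rw [show (volume : Measure (ℝ × ℝ)) = (volume : Measure ℝ).prod volume from rfl]
  rw [Measure.prod_apply_symm hm]
  have : ∀ y : ℝ, volume ((fun x : ℝ => (x, y)) ⁻¹' {p : ℝ × ℝ | f p.2 = p.1}) = 0 := by
    intro y
    have h2 : (fun x : ℝ => (x, y)) ⁻¹' {p : ℝ × ℝ | f p.2 = p.1} = {f y} := by
      ext x
      simp only [mem_preimage, mem_ofPred_eq, mem_singleton_iff]
      exact eq_comm
    rw [h2]
    exact Real.volume_singleton
  simp only [this, lintegral_zero]

lemma D_connected : IsConnected D := by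
  have h1 : D = (fun p : ℝ × ℝ => ((f p.2 + p.1 : ℝ) : ℂ) + (p.2 : ℝ) * Complex.I) ''
      (Ioi (0 : ℝ) ×ˢ univ) := by
    ext z
    constructor
    · intro hz
      have hz' : f z.im < z.re := hz
      refine ⟨(z.re - f z.im, z.im), ⟨?_, mem_univ _⟩, ?_⟩
      · simp only [mem_Ioi]; linarith
      · simp only [add_sub_cancel]
        exact Complex.re_add_im z
    · rintro ⟨⟨s, y⟩, ⟨hs, -⟩, rfl⟩
      have hs' : 0 < s := hs
      change f (((f y + s : ℝ) : ℂ) + (y : ℝ) * Complex.I).im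
        < (((f y + s : ℝ) : ℂ) + (y : ℝ) * Complex.I).re
      simp only [Complex.add_im, Complex.ofReal_im, Complex.im_ofReal_mul,
          Complex.I_im, mul_one, zero_add, Complex.add_re, Complex.ofReal_re,
          Complex.re_ofReal_mul, Complex.I_re, mul_zero, add_zero]
      linarith
  rw [h1]
  apply IsConnected.image
  · exact (isConnected_Ioi).prod isConnected_univ
  · apply Continuous.continuousOn
    have := f_continuous
    fun_prop

lemma D_lipschitz : IsLipschitzDomain D := by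
  refine ⟨D_isOpen, D_connected, fun p _ => ⟨1, one_pos, 1, by simp, 1, f, f_lipschitz, ?_⟩⟩
  intro z _
  simp only [one_mul]
  rfl

lemma laplacian_cube (z : ℂ) : (Δ (fun z : ℂ => (z.re ^ 3 / 6 : ℝ)) : ℂ → ℝ) z = z.re := by
  have hc : ContDiffAt ℝ 2 (fun z : ℂ => z.re ^ 3 / 6) z := by
    have : ContDiff ℝ 2 (fun z : ℂ => z.re) := Complex.reCLM.contDiff
    exact ((this.pow 3).div_const 6).contDiffAt
  rw [laplacian_eq_iteratedFDeriv_complexPlane]
  have h1 : iteratedFDeriv ℝ 2 (fun z : ℂ => z.re ^ 3 / 6) z ![1, 1] = z.re := by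
    refine iteratedFDeriv_two_line hc (g := fun t => (z.re + t) ^ 2 / 2)
      (Eventually.of_forall fun t => ?_) ?_
    · have h2 : HasDerivAt (fun s : ℝ => (z.re + s) ^ 3 / 6) ((z.re + t) ^ 2 / 2) t := by
        have h3 := (((hasDerivAt_id t).const_add z.re).pow 3).div_const 6
        refine h3.congr_deriv ?_
        simp
        ring
      refine h2.congr_of_eventuallyEq (Eventually.of_forall fun s => ?_)
      simp
    · have h3 := (((hasDerivAt_id (0 : ℝ)).const_add z.re).pow 2).div_const 2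
      refine h3.congr_deriv ?_
      simp
  have h2 : iteratedFDeriv ℝ 2 (fun z : ℂ => z.re ^ 3 / 6) z ![Complex.I, Complex.I] = 0 := by
    refine iteratedFDeriv_two_line hc (g := fun _ => 0)
      (Eventually.of_forall fun t => ?_) (hasDerivAt_const _ _)
    refine (hasDerivAt_const t (z.re ^ 3 / 6)).congr_of_eventuallyEq
      (Eventually.of_forall fun s => ?_)
    simp
  simp only [h1, h2, add_zero]

lemma analyticAt_G {z : ℂ} (hz : z ∈ D ∩ Bx) : AnalyticAt ℂ G z := by
  apply DifferentiableOn.analyticAt (s := D ∩ Bx)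
  · intro x hx
    exact (hasDerivAt_G hx.1 hx.2).differentiableAt.differentiableWithinAt
  · exact (D_isOpen.inter Bx_isOpen).mem_nhds hz

lemma laplacian_u_D {z : ℂ} (hz : z ∈ D ∩ Bx) :
    ContDiffAt ℝ 2 u z ∧ Δ u z = z.re := by
  have h1 : u =ᶠ[𝓝 z] (fun z : ℂ => z.re ^ 3 / 6) + (fun z => (G z).re) := by
    filter_upwards [D_isOpen.mem_nhds hz.1] with x hx
    simp [u, hx]
  have hH : HarmonicAt (fun z => (G z).re) z := (analyticAt_G hz).harmonicAt_re
  have hc : ContDiffAt ℝ 2 (fun z : ℂ => z.re ^ 3 / 6) z := by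
    have : ContDiff ℝ 2 (fun z : ℂ => z.re) := Complex.reCLM.contDiff
    exact ((this.pow 3).div_const 6).contDiffAt
  refine ⟨(hc.add hH.1).congr_of_eventuallyEq h1, ?_⟩
  rw [(laplacian_congr_nhds h1).eq_of_nhds, hc.laplacian_add hH.1, laplacian_cube,
    hH.2.eq_of_nhds]
  simp

lemma laplacian_u_ext {z : ℂ} (hz : z.re < f z.im) :
    ContDiffAt ℝ 2 u z ∧ Δ u z = 0 := by
  have ho : IsOpen {z : ℂ | z.re < f z.im} :=
    isOpen_lt Complex.continuous_re (f_continuous.comp Complex.continuous_im)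
  have h1 : u =ᶠ[𝓝 z] (fun _ : ℂ => (0 : ℝ)) := by
    filter_upwards [ho.mem_nhds hz] with x hx
    exact u_graph (le_of_lt hx)
  refine ⟨contDiffAt_const.congr_of_eventuallyEq h1, ?_⟩
  rw [(laplacian_congr_nhds h1).eq_of_nhds]
  simp

lemma differentiableAt_fderiv {z : ℂ} (h : ContDiffAt ℝ 2 u z) :
    DifferentiableAt ℝ (fderiv ℝ u) z := by
  have h1 : ContDiffAt ℝ 1 (fderiv ℝ u) z := h.fderiv_right (by norm_num)
  exact h1.differentiableAt (by norm_num)

lemma setting : Setting D u where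
  lipschitz := D_lipschitz
  zero_mem := by
    rw [frontier_D]
    simp [f_zero]
  contDiff := contDiffOn_u.mono ball_sub_Bx
  lipschitz_grad := ⟨6, fderiv_u_lip.mono ball_sub_Bx⟩
  equation := by
    have h1 : ∀ᵐ z : ℂ, z ∉ frontier D := by
      rw [ae_iff]
      simpa using volume_frontier_D
    rw [ae_restrict_iff' measurableSet_ball]
    filter_upwards [h1] with z hz hb
    have hb' := ball_sub_Bx hb
    rw [frontier_D] at hz
    rcases lt_trichotomy (f z.im) z.re with h | h | h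
    · have h2 := laplacian_u_D (z := z) ⟨h, hb'⟩
      refine ⟨differentiableAt_fderiv h2.1, ?_⟩
      rw [h2.2, indicator_of_mem (show z ∈ D from h)]
    · exact absurd h hz
    · have h2 := laplacian_u_ext h
      refine ⟨differentiableAt_fderiv h2.1, ?_⟩
      rw [h2.2, indicator_of_notMem]
      intro h3
      have h3' : f z.im < z.re := h3
      linarith
  vanishing := by
    intro z _ hz
    exact if_neg (fun h => hz (subset_closure h))

lemma boundary_C1 : BoundaryOfClass C1 D := by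
  refine ⟨5, by norm_num, 1, by simp, f, contDiffOn_f, ?_⟩
  intro z _
  rw [frontier_D, one_mul]
  exact eq_comm

lemma k_neg (y : ℝ) : k (-y) = -k y := by
  have h1 : h (-k y) = -y := by rw [h_neg, h_k]
  rw [← h1, k_h]

lemma f_neg (y : ℝ) : f (-y) = f y := by
  unfold f; rw [k_neg, abs_neg]

lemma f_le_abs (y : ℝ) : f y ≤ |y| := by
  have h1 := abs_f_sub_le y 0
  rw [f_zero, sub_zero, sub_zero, one_mul] at h1
  exact (le_abs_self _).trans h1

lemma not_holder {α : ℝ} (hα : 0 < α) : ¬ BoundaryOfClass (C1Holder α) D := by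
  rintro ⟨ρ, hρ, θ, hθ, g, ⟨hg1, C, hg2⟩, hgr⟩
  set a := θ.re with ha
  set b := θ.im with hb
  have hab : a ^ 2 + b ^ 2 = 1 := by
    have : ‖θ‖ ^ 2 = a ^ 2 + b ^ 2 := by
      rw [← Complex.normSq_eq_norm_sq, Complex.normSq_apply]; ring
    rw [← this, hθ]; norm_num
  have h00 : g 0 = 0 := by
    have := (hgr 0 (by simpa using hρ)).mp (by rw [frontier_D]; simp [f_zero])
    simpa using this.symm
  set m := deriv g 0 with hm
  have h0mem : (0 : ℝ) ∈ Ioo (-ρ) ρ := ⟨by linarith, hρ⟩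
  have hgd : ∀ s ∈ Ioo (-ρ) ρ, HasDerivAt g (deriv g s) s := by
    intro s hs
    have := (hg1.differentiableOn (by norm_num)).differentiableAt (isOpen_Ioo.mem_nhds hs)
    exact this.hasDerivAt
  -- Taylor estimate
  have hT : ∀ s : ℝ, |s| < ρ → |g s - m * s| ≤ |C| * |s| ^ (1 + α) := by
    intro s hs
    have hconv : Convex ℝ (Icc (-|s|) |s|) := convex_Icc _ _
    have hsub : ∀ x ∈ Icc (-|s|) |s|, x ∈ Ioo (-ρ) ρ := by
      intro x hx
      exact ⟨by linarith [hx.1], by linarith [hx.2]⟩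
    have hd : ∀ x ∈ Icc (-|s|) |s|, HasDerivWithinAt (fun x => g x - m * x) (deriv g x - m)
        (Icc (-|s|) |s|) x := by
      intro x hx
      have h1 := (hgd x (hsub x hx)).sub ((hasDerivAt_id x).const_mul m)
      rw [mul_one] at h1
      exact h1.hasDerivWithinAt
    have hbd : ∀ x ∈ Icc (-|s|) |s|, ‖deriv g x - m‖ ≤ |C| * |s| ^ α := by
      intro x hx
      rw [Real.norm_eq_abs]
      have h1 := hg2 x (hsub x hx) 0 h0mem
      rw [sub_zero] at h1
      have h2 : |x| ≤ |s| := abs_le.mpr hx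
      have h3 : |x| ^ α ≤ |s| ^ α := Real.rpow_le_rpow (abs_nonneg _) h2 hα.le
      have h4 : 0 ≤ |x| ^ α := Real.rpow_nonneg (abs_nonneg _) _
      calc |deriv g x - m| ≤ C * |x| ^ α := h1
        _ ≤ |C| * |x| ^ α := mul_le_mul_of_nonneg_right (le_abs_self C) h4
        _ ≤ |C| * |s| ^ α := mul_le_mul_of_nonneg_left h3 (abs_nonneg C)
    have h5 := hconv.norm_image_sub_le_of_norm_hasDerivWithin_le hd hbd
      (x := 0) (y := s) (by simp) ⟨neg_abs_le s, le_abs_self s⟩
    simp only [h00, mul_zero, sub_zero, Real.norm_eq_abs] at h5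
    rcases eq_or_ne s 0 with rfl | hs0
    · simp [h00]
      positivity
    · rw [Real.rpow_add (abs_pos.mpr hs0), Real.rpow_one]
      calc |g s - m * s| ≤ |C| * |s| ^ α * |s| := h5
        _ = |C| * (|s| * |s| ^ α) := by ring
  -- the relation on the free boundary
  have hrel : ∀ y : ℝ, |y| < ρ / 2 →
      |(a - m * b) * f y - (b + m * a) * y| ≤ |C| * (2 * |y|) ^ (1 + α) := by
    intro y hy
    have hfy := f_le_abs y
    have hfy0 := f_nonneg y
    let z : ℂ := (f y : ℝ) + (y : ℝ) * Complex.I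
    have hzre : z.re = f y := by simp [z]
    have hzim : z.im = y := by simp [z]
    have hzn : ‖z‖ < ρ := by
      calc ‖z‖ ≤ |z.re| + |z.im| := Complex.norm_le_abs_re_add_abs_im z
        _ = f y + |y| := by rw [hzre, hzim, abs_of_nonneg hfy0]
        _ < ρ := by linarith
    have hzf : z ∈ frontier D := by
      rw [frontier_D]
      change f z.im = z.re
      rw [hzre, hzim]
    have h1 := (hgr z hzn).mp hzf
    have hre : (θ * z).re = a * f y - b * y := by rw [Complex.mul_re, hzre, hzim]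
    have him : (θ * z).im = a * y + b * f y := by rw [Complex.mul_im, hzre, hzim]
    rw [hre, him] at h1
    have ha1 : |a| ≤ 1 := by
      rw [abs_le]; constructor <;> nlinarith [sq_nonneg b]
    have hb1 : |b| ≤ 1 := by
      rw [abs_le]; constructor <;> nlinarith [sq_nonneg a]
    have hs : |a * y + b * f y| ≤ 2 * |y| := by
      calc |a * y + b * f y| ≤ |a * y| + |b * f y| := abs_add_le _ _
        _ = |a| * |y| + |b| * f y := by rw [abs_mul, abs_mul, abs_of_nonneg hfy0]
        _ ≤ 2 * |y| := by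
          have := abs_nonneg y
          have := abs_nonneg a
          have := abs_nonneg b
          nlinarith
    have h2 := hT (a * y + b * f y) (by linarith)
    rw [← h1] at h2
    have h3 : a * f y - b * y - m * (a * y + b * f y) = (a - m * b) * f y - (b + m * a) * y := by
      ring
    rw [h3] at h2
    refine h2.trans ?_
    apply mul_le_mul_of_nonneg_left _ (abs_nonneg C)
    exact Real.rpow_le_rpow (abs_nonneg _) hs (by linarith)
  -- split into even and odd part
  have hodd : ∀ y : ℝ, |y| < ρ / 2 → |b + m * a| * |y| ≤ |C| * (2 * |y|) ^ (1 + α) := by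
    intro y hy
    have h1 := hrel y hy
    have h2 := hrel (-y) (by rwa [abs_neg])
    rw [f_neg, abs_neg] at h2
    have h3 : 2 * ((b + m * a) * y) = ((a - m * b) * f y - (b + m * a) * (-y))
        - ((a - m * b) * f y - (b + m * a) * y) := by ring
    have h4 : |2 * ((b + m * a) * y)| ≤ |C| * (2 * |y|) ^ (1 + α) + |C| * (2 * |y|) ^ (1 + α) := by
      rw [h3]
      exact (abs_sub _ _).trans (add_le_add h2 h1)
    rw [abs_mul, abs_mul, abs_of_pos (by norm_num : (0 : ℝ) < 2)] at h4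
    linarith
  have heven : ∀ y : ℝ, |y| < ρ / 2 → |a - m * b| * f y ≤ |C| * (2 * |y|) ^ (1 + α) := by
    intro y hy
    have h1 := hrel y hy
    have h2 := hrel (-y) (by rwa [abs_neg])
    rw [f_neg, abs_neg] at h2
    have h3 : 2 * ((a - m * b) * f y) = ((a - m * b) * f y - (b + m * a) * (-y))
        + ((a - m * b) * f y - (b + m * a) * y) := by ring
    have h4 : |2 * ((a - m * b) * f y)| ≤ |C| * (2 * |y|) ^ (1 + α) + |C| * (2 * |y|) ^ (1 + α) := by
      rw [h3]
      exact (abs_add_le _ _).trans (add_le_add h2 h1)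
    rw [abs_mul, abs_mul, abs_of_pos (by norm_num : (0 : ℝ) < 2), abs_of_nonneg (f_nonneg y)] at h4
    linarith
  have hbm : b + m * a = 0 := by
    by_contra hne
    have hpos : 0 < |b + m * a| := abs_pos.mpr hne
    have hlim : Tendsto (fun y : ℝ => |C| * 2 ^ (1 + α) * y ^ α) (𝓝[>] 0) (𝓝 0) := by
      have hc : Continuous (fun t : ℝ => t ^ α) := Real.continuous_rpow_const hα.le
      have h2 := hc.tendsto 0
      rw [Real.zero_rpow hα.ne'] at h2
      simpa using (h2.mono_left nhdsWithin_le_nhds).const_mul (|C| * 2 ^ (1 + α))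
    have h1 : ∀ᶠ y in 𝓝[>] (0 : ℝ), |C| * 2 ^ (1 + α) * y ^ α < |b + m * a| :=
      hlim.eventually_lt_const hpos
    have h2 : ∀ᶠ y in 𝓝[>] (0 : ℝ), y < ρ / 2 :=
      nhdsWithin_le_nhds (Iio_mem_nhds (by linarith))
    obtain ⟨y, ⟨hy1, hy2⟩, hy3⟩ := ((h1.and h2).and self_mem_nhdsWithin).exists
    have hy0 : 0 < y := hy3
    have h3 := hodd y (by rw [abs_of_pos hy0]; exact hy2)
    rw [abs_of_pos hy0, Real.mul_rpow (by norm_num) hy0.le, Real.rpow_add hy0, Real.rpow_one] at h3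
    have h4 : |C| * (2 ^ (1 + α) * (y * y ^ α)) = y * (|C| * 2 ^ (1 + α) * y ^ α) := by ring
    rw [h4] at h3
    have h5 := mul_lt_mul_of_pos_left hy1 hy0
    linarith
  have hne : a - m * b ≠ 0 := by
    intro h
    have hb' : b = -(m * a) := by linarith
    have h2 : a * (1 + m ^ 2) = 0 := by
      rw [hb'] at h
      linear_combination h
    have h3 : a = 0 := by
      rcases mul_eq_zero.mp h2 with h4 | h4
      · exact h4
      · nlinarith [sq_nonneg m]
    rw [h3] at hb' hab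
    rw [hb'] at hab
    norm_num at hab
  have hpos : 0 < |a - m * b| := abs_pos.mpr hne
  refine f_not_holder α (|C| * 2 ^ (1 + α) / |a - m * b|) (ρ / 2) hα (by linarith) ?_
  intro y hy0 hy1
  have h3 := heven y (by rw [abs_of_pos hy0]; exact hy1)
  rw [abs_of_pos hy0, Real.mul_rpow (by norm_num) hy0.le] at h3
  rw [div_mul_eq_mul_div, le_div_iff₀ hpos]
  linarith

lemma holder_of_C2 {E : Set ℂ} (H : BoundaryOfClass (fun ρ g => ContDiffOn ℝ 2 g (Ioo (-ρ) ρ)) E) :
    BoundaryOfClass (C1Holder 1) E := by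
  obtain ⟨ρ, hρ, θ, hθ, g, hg, hgr⟩ := H
  have h0mem : (0 : ℝ) ∈ Ioo (-ρ) ρ := ⟨by linarith, hρ⟩
  have h1 : ContDiffOn ℝ 1 (deriv g) (Ioo (-ρ) ρ) := hg.deriv_of_isOpen isOpen_Ioo (by norm_num)
  have h2 : ContDiffAt ℝ 1 (deriv g) 0 := h1.contDiffAt (isOpen_Ioo.mem_nhds h0mem)
  obtain ⟨K, t, ht, hK⟩ := h2.exists_lipschitzOnWith
  obtain ⟨r, hr, hrt⟩ := Metric.mem_nhds_iff.mp ht
  refine ⟨min ρ r, lt_min hρ hr, θ, hθ, g, ⟨?_, K, ?_⟩, ?_⟩
  · apply (hg.of_le (by norm_num)).mono
    apply Ioo_subset_Ioo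
    · exact neg_le_neg (min_le_left _ _)
    · exact min_le_left _ _
  · have hsub : ∀ s ∈ Ioo (-(min ρ r)) (min ρ r), s ∈ t := by
      intro s hs
      apply hrt
      rw [mem_ball_zero_iff, Real.norm_eq_abs, abs_lt]
      exact ⟨by linarith [hs.1, min_le_right ρ r], by linarith [hs.2, min_le_right ρ r]⟩
    intro s hs s' hs'
    rw [Real.rpow_one]
    have := hK.dist_le_mul s (hsub s hs) s' (hsub s' hs')
    rwa [Real.dist_eq, Real.dist_eq] at this
  · intro z hz
    exact hgr z (lt_of_lt_of_le hz (min_le_left _ _))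

/-- There are a Lipschitz domain `D` and a solution `u ∈ C^{1,1}(B₂)` of `Δu = x₁ χ_D`, `u = 0`
outside `D`, whose free boundary is `C¹` near `0` but not `C^{1,α}` near `0` for any `α > 0`;
in particular it is neither `C^∞` nor real analytic near `0`. -/
theorem result : ∃ (D : Set ℂ) (u : ℂ → ℝ), Setting D u ∧ BoundaryOfClass C1 D ∧
    (∀ α : ℝ, 0 < α → ¬ BoundaryOfClass (C1Holder α) D) ∧
    ¬ BoundaryOfClass CInfty D ∧ ¬ BoundaryOfClass RealAnalytic D := by
  have hinf : ¬ BoundaryOfClass CInfty Pool.Agent.X102.FB.D := by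
    rintro ⟨ρ, hρ, θ, hθ, g, hg, hgr⟩
    exact not_holder one_pos (holder_of_C2 ⟨ρ, hρ, θ, hθ, g, hg.of_le (WithTop.coe_le_coe.mpr le_top), hgr⟩)
  refine ⟨D, u, setting, boundary_C1, fun α hα => not_holder hα, hinf, ?_⟩
  rintro ⟨ρ, hρ, θ, hθ, g, hg, hgr⟩
  exact hinf ⟨ρ, hρ, θ, hθ, g, hg.contDiffOn isOpen_Ioo.uniqueDiffOn, hgr⟩

end Pool.Agent.Results.MP_056161_an.NoRegularity
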